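import Pool.Agent.H10.DST

namespace Pool.Agent.Results.MP_a9bf58_lc.NotAnalytic
open Set Filter Topology PiNat MeasureTheory TopologicalSpace Pool.Agent.H10.DST

/-- The Effros Borel structure on the closed subsets of `U`. -/
@[reducible] def effros (U : Type) [TopologicalSpace U] : MeasurableSpace (Closeds U) :=
  MeasurableSpace.generateFrom {S | ∃ V : Set U, IsOpen V ∧ S = {F : Closeds U | ((F : Set U) ∩ V).Nonempty}}

/-- Analytic relation: projection of a Borel set along a standard Borel space. -/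
def An {X : Type} (_ : MeasurableSpace X) (R : X → X → Prop) : Prop :=
  ∃ (Ω : Type) (_ : MeasurableSpace Ω) (_ : StandardBorelSpace Ω) (B : Set ((X × X) × Ω)),
    MeasurableSet B ∧ ∀ x y, R x y ↔ ∃ w, ((x, y), w) ∈ B

def nu (b : ℕ → ℕ) (n i : ℕ) : ℕ := if i < n then b i + 1 else 0

def N (T : List ℕ → Bool) : Set (ℕ → ℕ) :=
  {x | ∃ b n, (n ≤ 1 ∨ ∀ m ≤ n, T (res b m) = true) ∧ nu b n = x}

theorem disc {T : List ℕ → Bool} (h : ¬ ∃ b : ℕ → ℕ, ∀ n, T (res b n) = true) :
    IsClosed (N T) ∧ IsDiscrete (N T) := by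
  refine isClosed_and_discrete_iff.2 fun x => ?_
  obtain ⟨k, y, hk⟩ : ∃ k y, cylinder x k ∩ N T ⊆ {y} := by
    by_cases c : ∃ i, x i = 0
    · obtain ⟨i, hi⟩ := c
      refine ⟨i + 1, fun k => if k < i then x k else 0, ?_⟩
      rintro _ ⟨h1, b, n, -, rfl⟩
      have := mem_cylinder_iff.1 h1
      funext k
      have a := this i (by omega)
      split_ifs with hk
      · exact this k (by omega)
      · unfold nu at a ⊢; split_ifs at a ⊢ <;> omega
    · push Not at c h
      obtain ⟨m, hm⟩ := h fun i => x i - 1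
      refine ⟨m + 2, 0, ?_⟩
      rintro _ ⟨h1, b, n, h2, rfl⟩
      have := mem_cylinder_iff.1 h1
      have a := this (m + 1) (by omega)
      have a' := c (m + 1)
      have n1 : m + 1 < n := by unfold nu at a; split_ifs at a <;> omega
      refine absurd ?_ hm
      rw [← (h2.resolve_left (by omega)) m (by omega)]
      congr 1
      refine res_eq_res.2 fun i hi => ?_
      rw [← this i (by omega), nu, if_pos (by omega)]; rfl
  rw [disjoint_principal_right]
  by_cases e : x = y
  · filter_upwards [mem_nhdsWithin_of_mem_nhds ((isOpen_cylinder _ x k).mem_nhds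
      (self_mem_cylinder _ _)), self_mem_nhdsWithin] with z h1 h2 h3 using h2 (e ▸ hk ⟨h1, h3⟩)
  · filter_upwards [mem_nhdsWithin_of_mem_nhds ((isOpen_cylinder _ x k).mem_nhds
      (self_mem_cylinder _ _)), mem_nhdsWithin_of_mem_nhds (compl_singleton_mem_nhds e)]
      with z h1 h2 h3 using h2 (hk ⟨h1, h3⟩)

theorem result (U : Type) [MetricSpace U] [CompleteSpace U] [SeparableSpace U]
    (hU : ∀ (Y : Type) [MetricSpace Y] [SeparableSpace Y], ∃ f : Y → U, Isometry f) :
    ¬ An (effros U) fun A B : Closeds U => Nonempty (A ≃ₜ B) := by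
  rintro ⟨Ω, _, _, B, hB, hR⟩
  letI := effros U
  obtain ⟨j, hj⟩ : ∃ j : (ℕ → ℕ) → U, IsClosedEmbedding j := by
    letI := PiNat.metricSpaceNatNat
    obtain ⟨j, hj⟩ := hU (ℕ → ℕ)
    exact ⟨j, hj.isClosedEmbedding⟩
  let A : (List ℕ → Bool) → Closeds U := fun T => ⟨closure (j '' N T), isClosed_closure⟩
  have hA : Measurable A := measurable_generateFrom (by
    rintro _ ⟨V, hV, rfl⟩
    refine IsOpen.measurableSet (isOpen_iff_mem_nhds.2 fun T hT => ?_)
    obtain ⟨_, ⟨_, ⟨b, n, h1, rfl⟩, rfl⟩, h2⟩ := (closure_inter_open_nonempty_iff hV).1 hT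
    filter_upwards [(eventually_all_finite (finite_le_nat n)).2 fun m _ =>
      ((continuous_apply (res b m)).tendsto T).eventually (p := (· = T (res b m))) (by simp)]
      with S hS
    exact ⟨_, subset_closure ⟨_, ⟨b, n, h1.imp_right fun h m hm => (hS m hm).trans (h m hm), rfl⟩,
      rfl⟩, h2⟩)
  have D : ∀ T, (¬ ∃ b : ℕ → ℕ, ∀ n, T (res b n) = true) → Nonempty (A T ≃ₜ ℕ) := fun T h => by
    obtain ⟨h1, h2⟩ := disc h
    have := h2.to_subtype
    have : Countable (N T) := TopologicalSpace.separableSpace_iff_countable.1 inferInstance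
    have : Infinite (N T) := Infinite.of_injective
      (fun k => ⟨nu (fun _ => k) 1, _, 1, .inl le_rfl, rfl⟩) fun k l e => by
        simpa [nu] using congrFun (congrArg Subtype.val e) 0
    obtain ⟨e⟩ := nonempty_equiv_of_countable (α := N T) (β := ℕ)
    exact ⟨((Homeomorph.setCongr (hj.isClosedMap _ h1).closure_eq).trans
      (hj.isEmbedding.homeomorphImage _).symm).trans e.toHomeomorphOfDiscrete⟩
  obtain ⟨e0⟩ := D (fun _ => false) (by simp)
  have : PolishSpace (List ℕ → Bool) := {}
  refine illf (AnalyticSet.measurableSet_of_compl ?_ ?_)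
  · convert MeasurableSet.analyticSet_image (f := (Prod.fst : (List ℕ → Bool) × (ℕ → ℕ) → _))
      (s := {p | ∀ n, p.1 (res p.2 n) = true}) (IsClosed.measurableSet ?_) measurable_fst using 1
    · ext; simp
    refine isClosed_of_closure_subset fun p hp n => ?_
    obtain ⟨q, ⟨h1, h2⟩, h3⟩ := mem_closure_iff.1 hp ({T : List ℕ → Bool | T (res p.2 n) = p.1 (res p.2 n)} ×ˢ
      cylinder p.2 n) (.prod ((continuous_apply (A := fun _ => Bool) (res p.2 n)).isOpen_preimage {_}
        (isOpen_discrete _)) (isOpen_cylinder _ _ _)) ⟨rfl, self_mem_cylinder _ _⟩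
    rw [cylinder_eq_res] at h2
    rw [← h1, ← h2]; exact h3 n
  · convert MeasurableSet.analyticSet_image (f := (Prod.fst : (List ℕ → Bool) × Ω → _))
      ((((hA.comp measurable_fst).prodMk (measurable_const (a := A fun _ => false))).prodMk
        measurable_snd) hB) measurable_fst using 1
    ext T
    simp only [mem_image, mem_preimage, Prod.exists, exists_and_right, exists_eq_right,
      Function.comp, ← hR]
    refine ⟨fun h => (D T h).map (·.trans e0.symm), fun ⟨e⟩ ⟨b, hb⟩ => ?_⟩
    have : DiscreteTopology (A T) := (e.trans e0).isEmbedding.discreteTopology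
    have t : Tendsto (fun n => j (nu b n)) atTop (𝓝 (j fun i => b i + 1)) :=
      (hj.continuous.tendsto _).comp (tend fun n i hi => if_pos hi)
    have m : ∀ n, j (nu b n) ∈ j '' N T := fun n => ⟨_, ⟨b, n, .inr fun m _ => hb m, rfl⟩, rfl⟩
    have t' : Tendsto (fun n => (⟨_, subset_closure (m n)⟩ : A T)) atTop
      (𝓝 ⟨_, mem_closure_of_tendsto t (.of_forall m)⟩) := tendsto_subtype_rng.2 t
    obtain ⟨n, hn⟩ := (tendsto_pure.1 (nhds_discrete (A T) ▸ t')).exists
    simpa [nu] using congrFun (hj.injective (congrArg Subtype.val hn)) n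

end Pool.Agent.Results.MP_a9bf58_lc.NotAnalytic
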